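import Pool.Agent.H36.WOT.S1

/-!
# WOT, row FIN: the last steps
-/

set_option autoImplicit false

namespace Pool.WOT

namespace FinAux

/-- The number of points of a row which stay. -/
theorem nx_eq (m R : ℕ) (y : ℕ → ℕ) (t : ℕ) : nx m R y t =
    ((Finset.range (y t)).filter fun j =>
      m ≤ j + ((Finset.Ioc t R).filter fun u => j < y u).card).card := by
  have h := Finset.card_filter_add_card_filter_not (s := Finset.range (y t))
    (fun j => j + ((Finset.Ioc t R).filter fun u => j < y u).card < m)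
  have h2 : ((Finset.range (y t)).filter fun j =>
      ¬ (j + ((Finset.Ioc t R).filter fun u => j < y u).card < m)) =
      (Finset.range (y t)).filter fun j =>
      m ≤ j + ((Finset.Ioc t R).filter fun u => j < y u).card := by
    refine Finset.filter_congr fun j _ => ?_
    rw [not_lt]
  rw [h2, Finset.card_range] at h
  rw [nx]
  omega

theorem nx_le (m R : ℕ) (y : ℕ → ℕ) (t : ℕ) : nx m R y t ≤ y t := Nat.sub_le _ _

/-- A point which stays. -/
theorem ex_of_pos (m R : ℕ) (y : ℕ → ℕ) (t : ℕ) (h : 0 < nx m R y t) :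
    ∃ j, j < y t ∧ m ≤ j + ((Finset.Ioc t R).filter fun u => j < y u).card := by
  rw [nx_eq] at h
  obtain ⟨j, hj⟩ := Finset.card_pos.1 h
  rw [Finset.mem_filter, Finset.mem_range] at hj
  exact ⟨j, hj.1, hj.2⟩

theorem big_u (m R t j : ℕ) (y : ℕ → ℕ) (hj : j < m)
    (h : m ≤ j + ((Finset.Ioc t R).filter fun u => j < y u).card) :
    ∃ u, t + (m - j) ≤ u ∧ u ≤ R ∧ j < y u := by
  by_contra hcon
  push Not at hcon
  have h1 : ((Finset.Ioc t R).filter fun u => j < y u) ⊆ Finset.Ioo t (t + (m - j)) := by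
    intro u hu
    rw [Finset.mem_filter, Finset.mem_Ioc] at hu
    rw [Finset.mem_Ioo]
    refine ⟨hu.1.1, ?_⟩
    by_contra hc
    push Not at hc
    have := hcon u hc hu.1.2
    omega
  have h2 := Finset.card_le_card h1
  rw [Nat.card_Ioo] at h2
  omega

/-- (1) -/
theorem fin1 (m R : ℕ) (z : ℕ → ℕ) (h0 : ∀ t, m < t → z t = 0) (h1 : ∀ t, z t ≤ t) (t : ℕ) :
    nx m R z t = 0 := by
  by_contra hne
  obtain ⟨j, hj, h⟩ := ex_of_pos m R z t (Nat.pos_of_ne_zero hne)
  have ht : t ≤ m := by
    by_contra hc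
    push Not at hc
    have := h0 t hc
    omega
  have h2 : ((Finset.Ioc t R).filter fun u => j < z u) ⊆ Finset.Ioc t m := by
    intro u hu
    rw [Finset.mem_filter, Finset.mem_Ioc] at hu
    rw [Finset.mem_Ioc]
    refine ⟨hu.1.1, ?_⟩
    by_contra hc
    push Not at hc
    have := h0 u hc
    omega
  have h3 := Finset.card_le_card h2
  rw [Nat.card_Ioc] at h3
  have := h1 t
  omega

theorem y_le {m R q L : ℕ} {y : ℕ → ℕ} (hI : Inv m R q L y) (t : ℕ) : y t ≤ t ∧ y t ≤ q := by
  rcases Nat.lt_or_ge t q with h | h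
  · rw [hI.a t h.le]
    exact ⟨le_rfl, h.le⟩
  · have h2 : y t ≤ y q := by
      obtain ⟨n, rfl⟩ := Nat.exists_eq_add_of_le h
      clear h
      induction n with
      | zero => exact le_rfl
      | succ n ih => exact (hI.b (q + n) (by omega)).trans ih
    rw [hI.a q le_rfl] at h2
    exact ⟨h2.trans h, h2⟩

theorem y_anti {m R q L : ℕ} {y : ℕ → ℕ} (hI : Inv m R q L y) (u v : ℕ) (hu : q ≤ u)
    (huv : u ≤ v) : y v ≤ y u := by
  obtain ⟨n, rfl⟩ := Nat.exists_eq_add_of_le huv
  clear huv
  induction n with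
  | zero => exact le_rfl
  | succ n ih => exact (hI.b (u + n) (by omega)).trans ih

/-- (3) -/
theorem fin3 {m R q L : ℕ} {y : ℕ → ℕ} (hI : Inv m R q L y) (hq : q < m) (t : ℕ) (ht : m < t) :
    nx m R (nx m R y) t = 0 := by
  by_contra hne
  obtain ⟨j, hj, h⟩ := ex_of_pos m R (nx m R y) t (Nat.pos_of_ne_zero hne)
  have hjq : j < q := (hj.trans_le (nx_le m R y t)).trans_le (y_le hI t).2
  obtain ⟨u, hu1, hu2, hu3⟩ := big_u m R t j (nx m R y) (by omega) h
  -- `j + 1` indices stay in row `u`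
  have h1 : j < ((Finset.range (y u)).filter fun i =>
      m ≤ i + ((Finset.Ioc u R).filter fun v => i < y v).card).card := by
    rw [← nx_eq]
    exact hu3
  have huL : u ≤ L := by
    by_contra hc
    push Not at hc
    have h2 := hI.c u hc
    have h3 := nx_le m R y u
    omega
  have h2 : ((Finset.range (y u)).filter fun i =>
      m ≤ i + ((Finset.Ioc u R).filter fun v => i < y v).card) ⊆
      Finset.Ico (2 * m + 1 - j - q) q := by
    intro i hi
    rw [Finset.mem_filter, Finset.mem_range] at hi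
    rw [Finset.mem_Ico]
    have h3 : ((Finset.Ioc u R).filter fun v => i < y v) ⊆ Finset.Ioc u L := by
      intro v hv
      rw [Finset.mem_filter, Finset.mem_Ioc] at hv
      rw [Finset.mem_Ioc]
      refine ⟨hv.1.1, ?_⟩
      by_contra hc
      push Not at hc
      have := hI.c v hc
      omega
    have h4 := Finset.card_le_card h3
    rw [Nat.card_Ioc] at h4
    have h5 := hI.d
    have h6 := (y_le hI u).2
    have h7 := hi.2
    omega
  have h3 := Finset.card_le_card h2
  rw [Nat.card_Ico] at h3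
  omega

/-- (2) -/
theorem fin2 {m R q L : ℕ} {y : ℕ → ℕ} (hI : Inv m R q L y) (hq : q < m)
    (hS : (∑ t ∈ Finset.range (R + 1), y t) ≤ m * (m + 1) / 2) (t : ℕ) (ht : m < t) :
    nx m R y t = 0 := by
  by_contra hne
  obtain ⟨j, hj, h⟩ := ex_of_pos m R y t (Nat.pos_of_ne_zero hne)
  have hjq : j < q := hj.trans_le (y_le hI t).2
  obtain ⟨u, hu1, hu2, hu3⟩ := big_u m R t j y (by omega) h
  have huL : u ≤ L := by
    by_contra hc
    push Not at hc
    have h2 := hI.c u hc
    omega
  have hd := hI.d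
  have s1 : (∑ v ∈ Finset.range (q + 1), v) + (u - q) * (j + 1) ≤
      ∑ t ∈ Finset.range (R + 1), y t := by
    have hsub : Finset.range (q + 1) ∪ Finset.Ioc q u ⊆ Finset.range (R + 1) := by
      intro v hv
      rw [Finset.mem_union, Finset.mem_range, Finset.mem_Ioc] at hv
      rw [Finset.mem_range]
      omega
    have hdis : Disjoint (Finset.range (q + 1)) (Finset.Ioc q u) := by
      rw [Finset.disjoint_left]
      intro v hv hv2
      rw [Finset.mem_range] at hv
      rw [Finset.mem_Ioc] at hv2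
      omega
    refine le_trans ?_ (Finset.sum_le_sum_of_subset (f := y) hsub)
    rw [Finset.sum_union hdis]
    refine add_le_add (Finset.sum_le_sum fun v hv => ?_) ?_
    · rw [Finset.mem_range] at hv
      rw [hI.a v (by omega)]
    · have h4 : (u - q) * (j + 1) = ∑ _v ∈ Finset.Ioc q u, (j + 1) := by
        rw [Finset.sum_const, Nat.card_Ioc, smul_eq_mul]
      rw [h4]
      refine Finset.sum_le_sum fun v hv => ?_
      rw [Finset.mem_Ioc] at hv
      have := y_anti hI v u (by omega) hv.2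
      omega
  have s2 : (∑ v ∈ Finset.range (q + 1), v) * 2 = q * (q + 1) := by
    have := Finset.sum_range_id_mul_two (q + 1)
    rw [this, Nat.add_sub_cancel]
    ring
  have s3 : m * (m + 1) / 2 * 2 ≤ m * (m + 1) := Nat.div_mul_le_self _ _
  have s4 : (2 * m + 1 - j - q) * (j + 1) ≤ (u - q) * (j + 1) :=
    Nat.mul_le_mul_right _ (by omega)
  -- the numbers
  have hq1 : m + 1 ≤ q + j := by omega
  obtain ⟨a, ha⟩ : ∃ a, j + 1 + a = q := ⟨q - 1 - j, by omega⟩
  obtain ⟨b, hb⟩ : ∃ b, m + 1 + b = q + j := ⟨q + j - m - 1, by omega⟩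
  obtain ⟨c, hc⟩ : ∃ c, q + 1 + c = m := ⟨m - 1 - q, by omega⟩
  have e1 : q = a + b + c + 3 := by omega
  have e2 : m = a + b + 2 * c + 4 := by omega
  have e3 : j = b + c + 2 := by omega
  have e4 : 2 * m + 1 - j - q = a + 2 * c + 4 := by omega
  rw [e4] at s4
  have s5 : q * (q + 1) + 2 * ((a + 2 * c + 4) * (j + 1)) ≤ m * (m + 1) := by
    have := s1.trans hS
    omega
  rw [e1, e2, e3] at s5
  have s6 : (a + b + c + 3) * (a + b + c + 3 + 1) + 2 * ((a + 2 * c + 4) * (b + c + 2 + 1)) =
      (a + b + 2 * c + 4) * (a + b + 2 * c + 4 + 1) +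
        (2 * (a * b) + 2 * (b * c) + c * c + 4 * a + 6 * b + 9 * c + 16) := by ring
  omega

end FinAux

open FinAux

theorem t_fin : FINStmt := by
  intro m R q L y _ hI hq
  refine ⟨fun t _ => ?_, fun hS t _ => ?_⟩
  · have e : (nx m R)^[3] y = nx m R (nx m R (nx m R y)) := rfl
    rw [e]
    refine fin1 m R _ (fun u hu => fin3 hI hq u hu) (fun u => ?_) t
    exact (nx_le m R _ u).trans ((nx_le m R y u).trans (y_le hI u).1)
  · have e : (nx m R)^[2] y = nx m R (nx m R y) := rfl
    rw [e]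
    exact fin1 m R _ (fun u hu => fin2 hI hq hS u hu)
      (fun u => (nx_le m R y u).trans (y_le hI u).1) t

end Pool.WOT
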